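import Pool.Agent.H83.V.FV
import Pool.Agent.H10.LF.NPC

/-!
# MP_c59857_nt (THEOREM V): row NPV of the board `lvv_modules` (the values are far from periodic)
-/

set_option autoImplicit false

open MeasureTheory ProbabilityTheory Filter Topology Finset
open scoped Nat ENNReal

namespace Pool.Agent.H89.V

open Pool.Agent.H28.LF
open Pool.Agent.H67.AG (Inv Av)
open Pool.Agent.H83.V (vl T_NPV)
open Pool.Agent.H10.LF (per_mul int_per sg_meas sg_int)

theorem btY_meas : Measurable fun ω : Yi => btY ω :=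
  measurable_fst.comp (measurable_pi_apply (0 : ℤ))

/-- the integral over the squarefree part of a periodic set vanishes -/
theorem int_sqf {ν : Measure Yi} (h : CompY ν) {r : ℕ} (hr : 0 < r) {A : Set Yi}
    (hA : MeasurableSet A) (hAr : ∀ᵐ ω ∂ν, (ω ∈ A ↔ shY^[r] ω ∈ A)) :
    ∫ ω in A ∩ {ω | (btY ω).2 = true}, sg (btY ω).1 ∂ν = 0 := by
  have := h.prob
  have hmp : MeasurePreserving shY ν ν := h.erg.toMeasurePreserving
  set B : ℕ → Set Yi := fun w => A ∩ {ω | ∀ p : ℕ, p < w → p.Prime → ω ∉ flY (p ^ 2)} with hBdef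
  have hBm : ∀ w, MeasurableSet (B w) := by
    intro w
    refine hA.inter ?_
    have h1 : {ω : Yi | ∀ p : ℕ, p < w → p.Prime → ω ∉ flY (p ^ 2)} =
        ⋂ p : ℕ, ⋂ _ : p < w, ⋂ _ : p.Prime, (flY (p ^ 2))ᶜ := by
      ext ω
      simp
    rw [h1]
    exact MeasurableSet.iInter fun p => MeasurableSet.iInter fun _ => MeasurableSet.iInter fun _ =>
      (Pool.Agent.H79.LF.flY_meas _).compl
  have hB0 : ∀ w, ∫ ω in B w, sg (btY ω).1 ∂ν = 0 := by
    intro w
    have hW : 0 < r * (w ! ^ 2) := Nat.mul_pos hr (pow_pos (Nat.factorial_pos w) 2)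
    refine int_per h hW (hBm w) ?_
    have h1 := per_mul hmp hAr (w ! ^ 2)
    have h2 : ∀ᵐ ω ∂ν, ∀ p : ℕ, p < w → p.Prime →
        (ω ∈ flY (p ^ 2) ↔ shY^[r * (w ! ^ 2)] ω ∈ flY (p ^ 2)) := by
      rw [ae_all_iff]
      intro p
      by_cases hp : p < w ∧ p.Prime
      · have h3 : p ^ 2 ∣ r * (w ! ^ 2) :=
          (pow_dvd_pow_of_dvd (Nat.dvd_factorial hp.2.pos hp.1.le) 2).mul_left r
        obtain ⟨c, hc⟩ := h3
        have h4 := per_mul hmp ((h.per (p ^ 2) (pow_pos hp.2.pos 2)).mono fun ω hω => hω.1) c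
        rw [← hc] at h4
        exact h4.mono fun ω hω _ _ => hω
      · exact Eventually.of_forall fun ω h5 h6 => absurd ⟨h5, h6⟩ hp
    filter_upwards [h1, h2] with ω h3 h4
    rw [hBdef]
    simp only [Set.mem_inter_iff, Set.mem_ofPred_eq]
    refine and_congr h3 (forall_congr' fun p => forall_congr' fun h5 => forall_congr' fun h6 => ?_)
    exact not_congr (h4 p h5 h6)
  have hanti : Antitone B := by
    intro w w' hww ω hω
    exact ⟨hω.1, fun p hp hp' => hω.2 p (lt_of_lt_of_le hp hww) hp'⟩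
  have hlim := tendsto_setIntegral_of_antitone hBm hanti
    ⟨0, (sg_int (ν := ν)).integrableOn⟩
  have hI : (⋂ w, B w) =ᵐ[ν] (A ∩ {ω | (btY ω).2 = true} : Set Yi) := by
    filter_upwards [h.sqf] with ω hω
    refine propext ?_
    show ω ∈ (⋂ w, B w) ↔ ω ∈ A ∩ {ω | (btY ω).2 = true}
    rw [Set.mem_iInter, Set.mem_inter_iff, Set.mem_ofPred_eq]
    constructor
    · intro h1
      refine ⟨(h1 0).1, ?_⟩
      by_contra h2
      rw [Bool.not_eq_true] at h2
      obtain ⟨p, hp, hpf⟩ := hω.1 h2
      exact (h1 (p + 1)).2 p (Nat.lt_succ_self p) hp hpf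
    · rintro ⟨h1, h2⟩ w
      refine ⟨h1, fun p _ hp hpf => ?_⟩
      have h3 := hω.2 ⟨p, hp, hpf⟩
      rw [h2] at h3
      exact absurd h3 (by simp)
  rw [← setIntegral_congr_set hI]
  refine tendsto_nhds_unique hlim ?_
  simp only [hB0]
  exact tendsto_const_nhds

/-- the value of a point of the `y`-side -/
noncomputable def gv (z : Bool) (ω : Yi) : ℝ := (vl z (btY ω) : ℝ)

theorem gv_meas (z : Bool) : Measurable (gv z) := by
  have h1 : Measurable fun b : Bool × Bool => (vl z b : ℝ) := measurable_of_finite _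
  exact h1.comp btY_meas

theorem vl_abs (z : Bool) (b : Bool × Bool) : |(vl z b : ℝ)| ≤ 1 := by
  unfold vl
  split_ifs <;> simp

theorem gv_abs (z : Bool) (ω : Yi) : |gv z ω| ≤ 1 := vl_abs z _

theorem gv_int (z : Bool) (ν : Measure Yi) [IsProbabilityMeasure ν] : Integrable (gv z) ν :=
  Integrable.of_bound (gv_meas z).aestronglyMeasurable 1
    (Eventually.of_forall fun ω => by rw [Real.norm_eq_abs]; exact gv_abs z ω)

theorem sqf_meas : MeasurableSet {ω : Yi | (btY ω).2 = true} := by
  have h1 : Measurable fun ω : Yi => (btY ω).2 := measurable_snd.comp btY_meas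
  exact h1 (measurableSet_singleton true)

/-- the value has mean zero on the invariant sets -/
theorem gv_zero (z : Bool) {ν : Measure Yi} (h : CompY ν) {r : ℕ} (hr : 0 < r) {A : Set Yi}
    (hA : MeasurableSet A) (hAr : ∀ᵐ ω ∂ν, (ω ∈ A ↔ shY^[r] ω ∈ A)) :
    ∫ ω in A, gv z ω ∂ν = 0 := by
  have := h.prob
  cases z with
  | true =>
    have h1 : ∀ ω, gv true ω = sg (btY ω).1 := by
      intro ω
      unfold gv vl sg
      cases (btY ω).1 <;> simp
    simp only [h1]
    exact int_per h hr hA hAr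
  | false =>
    have h1 : ∀ ω, gv false ω = ({ω | (btY ω).2 = true} : Set Yi).indicator
        (fun ω => sg (btY ω).1) ω := by
      intro ω
      unfold gv vl sg
      by_cases h2 : (btY ω).2 = true
      · rw [Set.indicator_of_mem (show ω ∈ {ω : Yi | (btY ω).2 = true} from h2), h2]
        cases (btY ω).1 <;> simp
      · rw [Set.indicator_of_notMem (show ω ∉ {ω : Yi | (btY ω).2 = true} from h2)]
        rw [Bool.not_eq_true] at h2
        rw [h2]
        simp
    simp only [h1]
    rw [setIntegral_indicator sqf_meas]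
    exact int_sqf h hr hA hAr

/-- Row NPV. -/
theorem pf_NPV (hD : Pool.Agent.H28.LF.T_DVS) (hM : Pool.Agent.H67.AG.T_ME) : T_NPV := by
  intro z ν h r hr
  have := h.prob
  have hmp : MeasurePreserving shY ν ν := h.erg.toMeasurePreserving
  by_contra hcon
  push Not at hcon
  -- the conditional expectation vanishes
  have hle : Inv shY r ≤ (inferInstance : MeasurableSpace Yi) := MeasurableSpace.invariants_le _
  have hE : ν[gv z | Inv shY r] =ᵐ[ν] 0 := by
    refine (ae_eq_condExp_of_forall_setIntegral_eq hle (gv_int z ν) (fun s _ _ => ?_)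
      (fun s hs _ => ?_) ?_).symm
    · exact (integrable_zero _ _ _).integrableOn
    · have h2 := MeasurableSpace.measurableSet_invariants.1 hs
      rw [gv_zero z h hr h2.1]
      · simp
      · refine Eventually.of_forall fun ω => ?_
        have h3 : ω ∈ shY^[r] ⁻¹' s ↔ ω ∈ s := by rw [h2.2]
        exact h3.symm
    · exact stronglyMeasurable_zero.aestronglyMeasurable
  have hT := hM Yi ν shY r (gv z) hmp (gv_meas z) (gv_abs z)
  have hT2 : Tendsto (fun n => ∫ ω, (Av shY r n (gv z) ω) ^ 2 ∂ν) atTop (𝓝 0) := by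
    refine hT.congr fun n => integral_congr_ae ?_
    filter_upwards [hE] with ω hω
    rw [hω]
    simp
  -- correlations
  have hsq : (1 : ℝ) / 4 ≤ ∫ ω, gv z ω ^ 2 ∂ν := by
    have h1 := (hD ν h).2
    refine h1.trans ?_
    have h2 : ν.real {ω : Yi | (btY ω).2 = true} =
        ∫ ω, ({ω : Yi | (btY ω).2 = true} : Set Yi).indicator (fun _ => (1 : ℝ)) ω ∂ν := by
      rw [integral_indicator sqf_meas]
      simp
    rw [h2]
    refine integral_mono ?_ ?_ fun ω => ?_
    · exact (integrable_const (1 : ℝ)).indicator sqf_meas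
    · refine Integrable.of_bound ((gv_meas z).pow_const 2).aestronglyMeasurable 1
        (Eventually.of_forall fun ω => ?_)
      rw [Real.norm_eq_abs, abs_pow]
      exact pow_le_one₀ (abs_nonneg _) (gv_abs z ω)
    · by_cases h3 : (btY ω).2 = true
      · rw [Set.indicator_of_mem (show ω ∈ {ω : Yi | (btY ω).2 = true} from h3)]
        unfold gv vl
        rw [h3]
        cases (btY ω).1 <;> simp
      · rw [Set.indicator_of_notMem (show ω ∉ {ω : Yi | (btY ω).2 = true} from h3)]
        positivity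
  have hgg : ∀ j : ℕ, (1 : ℝ) / 5 ≤ ∫ ω, gv z ω * gv z (shY^[r * j] ω) ∂ν := by
    intro j
    set D : Set Yi := {ω | vl z (btY (shY^[r * j] ω)) ≠ vl z (btY ω)} with hDdef
    have hmj : Measurable (shY^[r * j] : Yi → Yi) := shY.measurable.iterate _
    have hDm : MeasurableSet D := by
      have h1 : Measurable fun ω : Yi => vl z (btY (shY^[r * j] ω)) :=
        (measurable_of_finite (vl z)).comp (btY_meas.comp hmj)
      have h2 : Measurable fun ω : Yi => vl z (btY ω) := (measurable_of_finite (vl z)).comp btY_meas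
      exact (measurableSet_eq_fun h1 h2).compl
    have h1 : ∀ ω, gv z ω ^ 2 - 2 * D.indicator (fun _ => (1 : ℝ)) ω ≤
        gv z ω * gv z (shY^[r * j] ω) := by
      intro ω
      by_cases h2 : ω ∈ D
      · rw [Set.indicator_of_mem h2]
        have h3 := gv_abs z ω
        have h4 := gv_abs z (shY^[r * j] ω)
        have h5 : gv z ω ^ 2 ≤ 1 := by
          rw [← sq_abs]
          exact pow_le_one₀ (abs_nonneg _) h3
        have h6 : |gv z ω * gv z (shY^[r * j] ω)| ≤ 1 := by
          rw [abs_mul]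
          exact mul_le_one₀ h3 (abs_nonneg _) h4
        have h7 := (abs_le.1 h6).1
        linarith
      · rw [Set.indicator_of_notMem h2]
        have h3 : vl z (btY (shY^[r * j] ω)) = vl z (btY ω) := by
          by_contra h4
          exact h2 h4
        have h4 : gv z (shY^[r * j] ω) = gv z ω := by
          unfold gv
          rw [h3]
        rw [h4]
        apply le_of_eq
        ring
    have hi1 : Integrable (fun ω => gv z ω ^ 2) ν := by
      refine Integrable.of_bound ((gv_meas z).pow_const 2).aestronglyMeasurable 1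
        (Eventually.of_forall fun ω => ?_)
      rw [Real.norm_eq_abs, abs_pow]
      exact pow_le_one₀ (abs_nonneg _) (gv_abs z ω)
    have hi2 : Integrable (fun ω => 2 * D.indicator (fun _ => (1 : ℝ)) ω) ν :=
      ((integrable_const (1 : ℝ)).indicator hDm).const_mul 2
    have hi3 : Integrable (fun ω => gv z ω * gv z (shY^[r * j] ω)) ν := by
      refine Integrable.of_bound ((gv_meas z).mul ((gv_meas z).comp hmj)).aestronglyMeasurable 1
        (Eventually.of_forall fun ω => ?_)
      rw [Real.norm_eq_abs, abs_mul]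
      exact mul_le_one₀ (gv_abs z ω) (abs_nonneg _) (gv_abs z _)
    have h2 := integral_mono (hi1.sub hi2) hi3 h1
    have h3 : ∫ ω, (gv z ω ^ 2 - 2 * D.indicator (fun _ => (1 : ℝ)) ω) ∂ν =
        ∫ ω, gv z ω ^ 2 ∂ν - 2 * ν.real D := by
      rw [integral_sub hi1 hi2, integral_const_mul, integral_indicator hDm]
      simp
    have h4 : ∫ ω, ((fun ω => gv z ω ^ 2) - fun ω => 2 * D.indicator (fun _ => (1 : ℝ)) ω) ω ∂ν =
        ∫ ω, (gv z ω ^ 2 - 2 * D.indicator (fun _ => (1 : ℝ)) ω) ∂ν := rfl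
    rw [h4, h3] at h2
    have h5 := hcon j
    linarith
  -- the averages
  have hAv : ∀ n : ℕ, 0 < n → (1 : ℝ) / 5 ≤ ∫ ω, gv z ω * Av shY r n (gv z) ω ∂ν := by
    intro n hn
    have hn' : (0 : ℝ) < n := Nat.cast_pos.2 hn
    have h1 : ∀ ω, gv z ω * Av shY r n (gv z) ω =
        (∑ l ∈ range n, gv z ω * gv z (shY^[r * l] ω)) / n := by
      intro ω
      unfold Av
      rw [mul_div_assoc', Finset.mul_sum]
    simp only [h1]
    rw [integral_div, integral_finsetSum]
    · rw [le_div_iff₀ hn']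
      calc 1 / 5 * (n : ℝ) = ∑ _l ∈ range n, (1 : ℝ) / 5 := by
            rw [Finset.sum_const, Finset.card_range, nsmul_eq_mul, mul_comm]
        _ ≤ _ := Finset.sum_le_sum fun l _ => hgg l
    · intro l _
      have hmj : Measurable (shY^[r * l] : Yi → Yi) := shY.measurable.iterate _
      refine Integrable.of_bound ((gv_meas z).mul ((gv_meas z).comp hmj)).aestronglyMeasurable 1
        (Eventually.of_forall fun ω => ?_)
      rw [Real.norm_eq_abs, abs_mul]
      exact mul_le_one₀ (gv_abs z ω) (abs_nonneg _) (gv_abs z _)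
  have hAm : ∀ n : ℕ, Measurable (Av shY r n (gv z)) := by
    intro n
    unfold Av
    refine Measurable.div_const (Finset.measurable_sum _ fun l _ => ?_) _
    exact (gv_meas z).comp (shY.measurable.iterate _)
  have hAb : ∀ n : ℕ, ∀ ω, |Av shY r n (gv z) ω| ≤ 1 := by
    intro n ω
    unfold Av
    rcases Nat.eq_zero_or_pos n with hn | hn
    · subst hn
      simp
    · have hn' : (0 : ℝ) < n := Nat.cast_pos.2 hn
      rw [abs_div, abs_of_pos hn', div_le_one hn']
      calc |∑ l ∈ range n, gv z (shY^[r * l] ω)| ≤ ∑ l ∈ range n, |gv z (shY^[r * l] ω)| :=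
            Finset.abs_sum_le_sum_abs _ _
        _ ≤ ∑ _l ∈ range n, (1 : ℝ) := Finset.sum_le_sum fun l _ => gv_abs z _
        _ = n := by simp
  obtain ⟨N, hN⟩ := (hT2.eventually (gt_mem_nhds (show (0 : ℝ) < 1 / 100 by norm_num))).exists_forall_of_atTop
  have h1 := hN (N + 1) (Nat.le_succ N)
  have h2 := hAv (N + 1) (Nat.succ_pos N)
  have hi2 : Integrable (fun ω => (Av shY r (N + 1) (gv z) ω) ^ 2) ν := by
    refine Integrable.of_bound ((hAm _).pow_const 2).aestronglyMeasurable 1
      (Eventually.of_forall fun ω => ?_)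
    rw [Real.norm_eq_abs, abs_pow]
    exact pow_le_one₀ (abs_nonneg _) (hAb _ ω)
  have h3 : ∫ ω, gv z ω * Av shY r (N + 1) (gv z) ω ∂ν ≤
      ∫ ω, (1 / 20 + 5 * (Av shY r (N + 1) (gv z) ω) ^ 2) ∂ν := by
    refine integral_mono ?_ ((integrable_const _).add (hi2.const_mul 5)) fun ω => ?_
    · refine Integrable.of_bound ((gv_meas z).mul (hAm _)).aestronglyMeasurable 1
        (Eventually.of_forall fun ω => ?_)
      rw [Real.norm_eq_abs, abs_mul]
      exact mul_le_one₀ (gv_abs z ω) (abs_nonneg _) (hAb _ ω)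
    · have h4 : gv z ω ^ 2 ≤ 1 := by
        rw [← sq_abs]
        exact pow_le_one₀ (abs_nonneg _) (gv_abs z ω)
      nlinarith [sq_nonneg (gv z ω - 10 * Av shY r (N + 1) (gv z) ω)]
  have h5 : ∫ ω, (1 / 20 + 5 * (Av shY r (N + 1) (gv z) ω) ^ 2) ∂ν =
      1 / 20 + 5 * ∫ ω, (Av shY r (N + 1) (gv z) ω) ^ 2 ∂ν := by
    rw [integral_add (integrable_const _) (hi2.const_mul 5), integral_const_mul]
    simp
  rw [h5] at h3
  linarith

end Pool.Agent.H89.V
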